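import Mathlib

set_option autoImplicit false

/-!
Common lemmas for the results on the Gyarfas-Sumner conjecture.
-/

namespace Pool.Agent.Lib.MP_763321_co

open Finset
open scoped Classical

universe u

section Col

variable {V : Type u}

/-- `G` restricted to `U` has a proper colouring with the colours `0, ..., c-1`. -/
def ColOn (G : SimpleGraph V) (U : Finset V) (c : ℕ) : Prop :=
  ∃ f : V → ℕ, (∀ v ∈ U, f v < c) ∧ ∀ v ∈ U, ∀ w ∈ U, G.Adj v w → f v ≠ f w

lemma ColOn.mono {G : SimpleGraph V} {U U' : Finset V} {c c' : ℕ} (h : ColOn G U c)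
    (hU : U' ⊆ U) (hc : c ≤ c') : ColOn G U' c' := by
  obtain ⟨f, h1, h2⟩ := h
  exact ⟨f, fun v hv => lt_of_lt_of_le (h1 v (hU hv)) hc,
    fun v hv w hw => h2 v (hU hv) w (hU hw)⟩

lemma colOn_empty (G : SimpleGraph V) (c : ℕ) : ColOn G ∅ c :=
  ⟨fun _ => 0, by simp, by simp⟩

lemma ColOn.union {G : SimpleGraph V} {U U' : Finset V} {c c' : ℕ} (h : ColOn G U c)
    (h' : ColOn G U' c') : ColOn G (U ∪ U') (c + c') := by
  obtain ⟨f, h1, h2⟩ := h
  obtain ⟨g, h3, h4⟩ := h'
  refine ⟨fun v => if v ∈ U then f v else c + g v, ?_, ?_⟩
  · intro v hv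
    by_cases hvU : v ∈ U
    · simp only [hvU, if_true]
      exact lt_of_lt_of_le (h1 v hvU) (Nat.le_add_right _ _)
    · simp only [hvU, if_false]
      have : v ∈ U' := by
        rcases Finset.mem_union.mp hv with h | h
        · exact absurd h hvU
        · exact h
      have := h3 v this
      omega
  · intro v hv w hw hvw
    by_cases hvU : v ∈ U <;> by_cases hwU : w ∈ U
    · simp only [hvU, hwU, if_true]
      exact h2 v hvU w hwU hvw
    · simp only [hvU, hwU, if_true, if_false]
      have := h1 v hvU
      omega
    · simp only [hvU, hwU, if_true, if_false]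
      have := h1 w hwU
      omega
    · simp only [hvU, hwU, if_false]
      have hv' : v ∈ U' := by
        rcases Finset.mem_union.mp hv with h | h
        · exact absurd h hvU
        · exact h
      have hw' : w ∈ U' := by
        rcases Finset.mem_union.mp hw with h | h
        · exact absurd h hwU
        · exact h
      have := h4 v hv' w hw' hvw
      omega

/-- Colour the fibres of a bounded function separately. -/
lemma colOn_fiber {G : SimpleGraph V} {U : Finset V} {c k : ℕ} (f : V → ℕ)
    (hf : ∀ v ∈ U, f v < k) (h : ∀ a < k, ColOn G (U.filter (fun v => f v = a)) c) :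
    ColOn G U (k * c) := by
  have h' : ∀ a : ℕ, ∃ g : V → ℕ, a < k → (∀ v ∈ U.filter (fun v => f v = a), g v < c) ∧
      ∀ v ∈ U.filter (fun v => f v = a), ∀ w ∈ U.filter (fun v => f v = a),
        G.Adj v w → g v ≠ g w := by
    intro a
    by_cases ha : a < k
    · obtain ⟨g, hg⟩ := h a ha
      exact ⟨g, fun _ => hg⟩
    · exact ⟨fun _ => 0, fun h => absurd h ha⟩
  choose g hg using h'
  refine ⟨fun v => f v * c + g (f v) v, ?_, ?_⟩
  · intro v hv
    have h1 := (hg (f v) (hf v hv)).1 v (by simp [hv])
    have h2 := hf v hv
    calc f v * c + g (f v) v < f v * c + c := by omega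
      _ = (f v + 1) * c := by ring
      _ ≤ k * c := Nat.mul_le_mul_right _ h2
  · intro v hv w hw hvw heq
    have h1 := (hg (f v) (hf v hv)).1 v (by simp [hv])
    have h2 := (hg (f w) (hf w hw)).1 w (by simp [hw])
    have heq' : f v * c + g (f v) v = f w * c + g (f w) w := heq
    have h3 : f v = f w := by
      have e1 : (f v * c + g (f v) v) / c = f v := by
        rw [mul_comm, Nat.mul_add_div (by omega), Nat.div_eq_of_lt h1, add_zero]
      have e2 : (f w * c + g (f w) w) / c = f w := by
        rw [mul_comm, Nat.mul_add_div (by omega), Nat.div_eq_of_lt h2, add_zero]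
      rw [← e1, ← e2, heq']
    have h4 := (hg (f v) (hf v hv)).2 v (by simp [hv]) w (by simp [hw, h3]) hvw
    rw [← h3] at heq'
    omega

/-- If the edges of `G` inside `U` are covered by two relations, each properly coloured by a
bounded function, then `G` is coloured on `U` by pairs. -/
lemma colOn_prod {G : SimpleGraph V} {U : Finset V} {c d : ℕ} (f g : V → ℕ)
    (hf : ∀ v ∈ U, f v < c) (hg : ∀ v ∈ U, g v < d)
    (h : ∀ v ∈ U, ∀ w ∈ U, G.Adj v w → f v ≠ f w ∨ g v ≠ g w) :
    ColOn G U (c * d) := by
  refine ⟨fun v => f v * d + g v, ?_, ?_⟩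
  · intro v hv
    have h1 := hf v hv
    have h2 := hg v hv
    calc f v * d + g v < f v * d + d := by omega
      _ = (f v + 1) * d := by ring
      _ ≤ c * d := Nat.mul_le_mul_right _ h1
  · intro v hv w hw hvw heq
    have h1 := hg v hv
    have h2 := hg w hw
    have heq' : f v * d + g v = f w * d + g w := heq
    have h3 : f v = f w := by
      have e1 : (f v * d + g v) / d = f v := by
        rw [mul_comm, Nat.mul_add_div (by omega), Nat.div_eq_of_lt h1, add_zero]
      have e2 : (f w * d + g w) / d = f w := by
        rw [mul_comm, Nat.mul_add_div (by omega), Nat.div_eq_of_lt h2, add_zero]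
      rw [← e1, ← e2, heq']
    rcases h v hv w hw hvw with h4 | h4
    · exact h4 h3
    · rw [h3] at heq'
      omega

/-- A digraph with out-degrees at most `M` can be coloured with `2M+1` colours. -/
lemma digraph_color (M : ℕ) (S : Finset V) (D : V → Finset V)
    (hD : ∀ v ∈ S, (D v).card ≤ M) :
    ∃ f : V → ℕ, (∀ v, f v < 2 * M + 1) ∧
      ∀ v ∈ S, ∀ z ∈ S, z ∈ D v → z ≠ v → f v ≠ f z := by
  induction S using Finset.strongInduction with
  | H S ih =>
    rcases S.eq_empty_or_nonempty with rfl | hne
    · exact ⟨fun _ => 0, by simp, by simp⟩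
    · -- a vertex with small in-degree
      have hsum : ∑ v ∈ S, (S.filter (fun u => v ∈ D u)).card ≤ ∑ v ∈ S, M := by
        have h1 : ∑ v ∈ S, (S.filter (fun u => v ∈ D u)).card =
            ∑ u ∈ S, (S.filter (fun v => v ∈ D u)).card := by
          simp_rw [Finset.card_filter]
          exact Finset.sum_comm
        rw [h1]
        refine Finset.sum_le_sum fun u hu => ?_
        refine le_trans (Finset.card_le_card ?_) (hD u hu)
        intro v hv
        exact (Finset.mem_filter.mp hv).2
      obtain ⟨v, hv, hvin⟩ := Finset.exists_le_of_sum_le hne hsum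
      obtain ⟨f, hf1, hf2⟩ := ih (S.erase v) (Finset.erase_ssubset hv)
        (fun u hu => hD u (Finset.mem_of_mem_erase hu))
      set bad : Finset ℕ := (D v ∪ S.filter (fun u => v ∈ D u)).image f with hbad
      have hbadcard : bad.card < (Finset.range (2 * M + 1)).card := by
        rw [Finset.card_range]
        calc bad.card ≤ (D v ∪ S.filter (fun u => v ∈ D u)).card := Finset.card_image_le
          _ ≤ (D v).card + (S.filter (fun u => v ∈ D u)).card := Finset.card_union_le _ _
          _ ≤ M + M := Nat.add_le_add (hD v hv) hvin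
          _ < 2 * M + 1 := by omega
      obtain ⟨c, hc1, hc2⟩ := Finset.exists_mem_notMem_of_card_lt_card hbadcard
      refine ⟨Function.update f v c, ?_, ?_⟩
      · intro u
        by_cases h : u = v
        · subst h
          simpa using hc1
        · rw [Function.update_of_ne h]
          exact hf1 u
      · intro u hu z hz hzu hne'
        by_cases h1 : u = v
        · subst h1
          rw [Function.update_self, Function.update_of_ne hne']
          intro h
          apply hc2
          rw [hbad, Finset.mem_image]
          exact ⟨z, Finset.mem_union_left _ hzu, h.symm⟩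
        · by_cases h2 : z = v
          · subst h2
            rw [Function.update_self, Function.update_of_ne h1]
            intro h
            apply hc2
            rw [hbad, Finset.mem_image]
            exact ⟨u, Finset.mem_union_right _ (Finset.mem_filter.mpr ⟨hu, hzu⟩), h⟩
          · rw [Function.update_of_ne h1, Function.update_of_ne h2]
            exact hf2 u (Finset.mem_erase.mpr ⟨h1, hu⟩) z (Finset.mem_erase.mpr ⟨h2, hz⟩) hzu hne'

end Col

section Pattern

/-- The tree on `0, ..., n-1` in which the parent of `j ≥ 1` is `par j`. -/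
def pat (par : ℕ → ℕ) (n : ℕ) : SimpleGraph (Fin n) where
  Adj i j := (i.1 < j.1 ∧ par j.1 = i.1) ∨ (j.1 < i.1 ∧ par i.1 = j.1)
  symm := ⟨by
    intro i j h
    rcases h with h | h
    · exact Or.inr h
    · exact Or.inl h⟩
  loopless := ⟨by
    intro i h
    rcases h with h | h
    · exact absurd h.1 (lt_irrefl _)
    · exact absurd h.1 (lt_irrefl _)⟩

/-- A finite nonempty acyclic graph has a vertex with at most one neighbour. -/
lemma exists_leaf {W : Type*} [Finite W] [Nonempty W] (F : SimpleGraph W) (hF : F.IsAcyclic) :
    ∃ u : W, ∀ w w', F.Adj u w → F.Adj u w' → w = w' := by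
  obtain ⟨u, v, p, hp, hmax⟩ := SimpleGraph.Walk.exists_isPath_forall_isPath_length_le_length F
  have key : ∀ w, F.Adj u w → w = p.snd := by
    intro w hadj
    apply hF.eq_snd_of_adj_start hp hadj
    by_contra hw
    have h1 : (SimpleGraph.Walk.cons hadj.symm p).IsPath := by
      rw [SimpleGraph.Walk.cons_isPath_iff]
      exact ⟨hp, hw⟩
    have h2 := hmax _ _ _ h1
    rw [SimpleGraph.Walk.length_cons] at h2
    omega
  exact ⟨u, fun w w' h h' => (key w h).trans (key w' h').symm⟩

/-- Every finite acyclic graph is an induced subgraph of some pattern tree. -/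
lemma exists_pat : ∀ (n : ℕ) {W : Type} [Fintype W] (F : SimpleGraph W), F.IsAcyclic →
    Fintype.card W = n → ∃ (m : ℕ) (par : ℕ → ℕ), 1 ≤ m ∧ (∀ j, 1 ≤ j → par j < j) ∧
      Nonempty (F ↪g pat par m) := by
  intro n
  induction n with
  | zero =>
    intro W _ F _ hcard
    refine ⟨1, fun _ => 0, le_refl _, fun j hj => hj, ?_⟩
    have : IsEmpty W := Fintype.card_eq_zero_iff.mp hcard
    exact ⟨⟨⟨fun w => (this.false w).elim, fun w => (this.false w).elim⟩,
      fun {w} => (this.false w).elim⟩⟩
  | succ n ih =>
    intro W _ F hF hcard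
    have hne : Nonempty W := by
      rw [← Fintype.card_pos_iff, hcard]
      exact Nat.succ_pos n
    obtain ⟨u, hu⟩ := exists_leaf F hF
    -- delete `u`
    have hcard' : Fintype.card ({u}ᶜ : Set W) = n := by
      rw [Fintype.card_compl_set, hcard]
      simp
    obtain ⟨m, par, hm, hpar, ⟨φ⟩⟩ := ih (F.induce ({u}ᶜ : Set W)) (hF.induce _) hcard'
    by_cases hdeg : ∃ w, F.Adj u w
    · obtain ⟨w, hw⟩ := hdeg
      have hwu : w ∈ ({u}ᶜ : Set W) := by
        simp only [Set.mem_compl_iff, Set.mem_singleton_iff]
        exact hw.ne'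
      set par' : ℕ → ℕ := fun j => if j = m then (φ ⟨w, hwu⟩).1 else par j with hpar'
      have hp1 : par' m = (φ ⟨w, hwu⟩).1 := by simp [hpar']
      have hp2 : ∀ j, j ≠ m → par' j = par j := fun j hj => by simp [hpar', hj]
      refine ⟨m + 1, par', by omega, ?_, ?_⟩
      · intro j hj
        by_cases h : j = m
        · subst h
          rw [hp1]
          exact (φ ⟨w, hwu⟩).2
        · rw [hp2 j h]
          exact hpar j hj
      · classical
        let ψ : W → Fin (m + 1) := fun x => if h : x ∈ ({u}ᶜ : Set W) then (φ ⟨x, h⟩).castSucc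
          else Fin.last m
        have hψu : ψ u = Fin.last m := by
          simp [ψ]
        have hψ : ∀ x (h : x ∈ ({u}ᶜ : Set W)), ψ x = (φ ⟨x, h⟩).castSucc := by
          intro x h
          simp only [ψ, h, dif_pos]
        have hψinj : Function.Injective ψ := by
          intro x y hxy
          by_cases hx : x ∈ ({u}ᶜ : Set W) <;> by_cases hy : y ∈ ({u}ᶜ : Set W)
          · rw [hψ x hx, hψ y hy] at hxy
            have := φ.injective (Fin.castSucc_injective _ hxy)
            exact congrArg Subtype.val this
          · have hy' : y = u := by simpa using hy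
            subst hy'
            rw [hψ x hx, hψu] at hxy
            exact absurd hxy (Fin.castSucc_lt_last _).ne
          · have hx' : x = u := by simpa using hx
            subst hx'
            rw [hψ y hy, hψu] at hxy
            exact absurd hxy.symm (Fin.castSucc_lt_last _).ne
          · have hx' : x = u := by simpa using hx
            have hy' : y = u := by simpa using hy
            rw [hx', hy']
        have hadj_u : ∀ y (hy : y ∈ ({u}ᶜ : Set W)),
            (pat par' (m + 1)).Adj (ψ u) (ψ y) ↔ F.Adj u y := by
          intro y hy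
          rw [hψu, hψ y hy]
          have hlt : ((φ ⟨y, hy⟩).castSucc : Fin (m + 1)).1 < m := by
            simp
          constructor
          · intro h
            rcases h with h | h
            · simp only [Fin.val_last] at h
              omega
            · have h2 := h.2
              simp only [Fin.val_last, Fin.val_castSucc] at h2
              rw [hp1] at h2
              have h3 : φ ⟨w, hwu⟩ = φ ⟨y, hy⟩ := Fin.ext h2
              have h4 := φ.injective h3
              have h5 : w = y := congrArg Subtype.val h4
              rw [← h5]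
              exact hw
          · intro h
            have : w = y := hu w y hw h
            subst this
            right
            refine ⟨hlt, ?_⟩
            simp only [Fin.val_last, Fin.val_castSucc]
            exact hp1
        refine ⟨⟨⟨ψ, hψinj⟩, ?_⟩⟩
        intro x y
        show (pat par' (m + 1)).Adj (ψ x) (ψ y) ↔ F.Adj x y
        by_cases hx : x ∈ ({u}ᶜ : Set W) <;> by_cases hy : y ∈ ({u}ᶜ : Set W)
        · rw [hψ x hx, hψ y hy]
          have h1 : (pat par m).Adj (φ ⟨x, hx⟩) (φ ⟨y, hy⟩) ↔ F.Adj x y := by
            rw [φ.map_adj_iff]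
            rfl
          rw [← h1]
          have hx2 : (φ ⟨x, hx⟩).1 ≠ m := (φ ⟨x, hx⟩).2.ne
          have hy2 : (φ ⟨y, hy⟩).1 ≠ m := (φ ⟨y, hy⟩).2.ne
          show (((φ ⟨x, hx⟩).castSucc.1 < (φ ⟨y, hy⟩).castSucc.1 ∧
              par' (φ ⟨y, hy⟩).castSucc.1 = (φ ⟨x, hx⟩).castSucc.1) ∨
            ((φ ⟨y, hy⟩).castSucc.1 < (φ ⟨x, hx⟩).castSucc.1 ∧
              par' (φ ⟨x, hx⟩).castSucc.1 = (φ ⟨y, hy⟩).castSucc.1)) ↔
            (((φ ⟨x, hx⟩).1 < (φ ⟨y, hy⟩).1 ∧ par (φ ⟨y, hy⟩).1 = (φ ⟨x, hx⟩).1) ∨
            ((φ ⟨y, hy⟩).1 < (φ ⟨x, hx⟩).1 ∧ par (φ ⟨x, hx⟩).1 = (φ ⟨y, hy⟩).1))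
          simp only [Fin.val_castSucc]
          rw [hp2 _ hx2, hp2 _ hy2]
        · have hy' : y = u := by simpa using hy
          subst hy'
          rw [SimpleGraph.adj_comm, SimpleGraph.adj_comm F]
          exact hadj_u x hx
        · have hx' : x = u := by simpa using hx
          subst hx'
          exact hadj_u y hy
        · have hx' : x = u := by simpa using hx
          have hy' : y = u := by simpa using hy
          subst hx'
          subst hy'
          simp
    · -- `u` is isolated: add a dummy vertex
      push Not at hdeg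
      set par' : ℕ → ℕ := fun j => if j = m then 0 else if j = m + 1 then m else par j with hpar'
      have hp0 : par' m = 0 := by simp [hpar']
      have hp1 : par' (m + 1) = m := by simp [hpar']
      have hp2 : ∀ j, j ≠ m → j ≠ m + 1 → par' j = par j := fun j hj hj' => by
        simp [hpar', hj, hj']
      refine ⟨m + 2, par', by omega, ?_, ?_⟩
      · intro j hj
        by_cases h : j = m
        · subst h
          rw [hp0]
          omega
        · by_cases h' : j = m + 1
          · subst h'
            rw [hp1]
            omega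
          · rw [hp2 j h h']
            exact hpar j hj
      · classical
        let ι : Fin m → Fin (m + 2) := fun i => ⟨i.1, by omega⟩
        let ψ : W → Fin (m + 2) := fun x => if h : x ∈ ({u}ᶜ : Set W) then ι (φ ⟨x, h⟩)
          else Fin.last (m + 1)
        have hψu : ψ u = Fin.last (m + 1) := by
          simp [ψ]
        have hψ : ∀ x (h : x ∈ ({u}ᶜ : Set W)), ψ x = ι (φ ⟨x, h⟩) := by
          intro x h
          simp only [ψ, h, dif_pos]
        have hι : ∀ i j, ι i = ι j → i = j := by
          intro i j h
          have := congrArg Fin.val h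
          exact Fin.ext this
        have hιlast : ∀ i, ι i ≠ Fin.last (m + 1) := by
          intro i h
          have := congrArg Fin.val h
          simp only [ι, Fin.val_last] at this
          have := i.2
          omega
        have hψinj : Function.Injective ψ := by
          intro x y hxy
          by_cases hx : x ∈ ({u}ᶜ : Set W) <;> by_cases hy : y ∈ ({u}ᶜ : Set W)
          · rw [hψ x hx, hψ y hy] at hxy
            have := φ.injective (hι _ _ hxy)
            exact congrArg Subtype.val this
          · have hy' : y = u := by simpa using hy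
            subst hy'
            rw [hψ x hx, hψu] at hxy
            exact absurd hxy (hιlast _)
          · have hx' : x = u := by simpa using hx
            subst hx'
            rw [hψ y hy, hψu] at hxy
            exact absurd hxy.symm (hιlast _)
          · have hx' : x = u := by simpa using hx
            have hy' : y = u := by simpa using hy
            rw [hx', hy']
        have hadj_u : ∀ y (hy : y ∈ ({u}ᶜ : Set W)),
            ¬ (pat par' (m + 2)).Adj (ψ u) (ψ y) := by
          intro y hy
          rw [hψu, hψ y hy]
          have hlt : (φ ⟨y, hy⟩).1 < m := (φ ⟨y, hy⟩).2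
          intro h
          rcases h with h | h
          · have h1 := h.1
            simp only [Fin.val_last, ι] at h1
            omega
          · have h2 := h.2
            simp only [Fin.val_last, ι] at h2
            rw [hp1] at h2
            omega
        refine ⟨⟨⟨ψ, hψinj⟩, ?_⟩⟩
        intro x y
        show (pat par' (m + 2)).Adj (ψ x) (ψ y) ↔ F.Adj x y
        by_cases hx : x ∈ ({u}ᶜ : Set W) <;> by_cases hy : y ∈ ({u}ᶜ : Set W)
        · rw [hψ x hx, hψ y hy]
          have h1 : (pat par m).Adj (φ ⟨x, hx⟩) (φ ⟨y, hy⟩) ↔ F.Adj x y := by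
            rw [φ.map_adj_iff]
            rfl
          rw [← h1]
          have hx2 : (φ ⟨x, hx⟩).1 < m := (φ ⟨x, hx⟩).2
          have hy2 : (φ ⟨y, hy⟩).1 < m := (φ ⟨y, hy⟩).2
          show (((φ ⟨x, hx⟩).1 < (φ ⟨y, hy⟩).1 ∧ par' (φ ⟨y, hy⟩).1 = (φ ⟨x, hx⟩).1) ∨
            ((φ ⟨y, hy⟩).1 < (φ ⟨x, hx⟩).1 ∧ par' (φ ⟨x, hx⟩).1 = (φ ⟨y, hy⟩).1)) ↔
            (((φ ⟨x, hx⟩).1 < (φ ⟨y, hy⟩).1 ∧ par (φ ⟨y, hy⟩).1 = (φ ⟨x, hx⟩).1) ∨
            ((φ ⟨y, hy⟩).1 < (φ ⟨x, hx⟩).1 ∧ par (φ ⟨x, hx⟩).1 = (φ ⟨y, hy⟩).1))
          rw [hp2 _ (by omega) (by omega), hp2 _ (by omega) (by omega)]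
        · have hy' : y = u := by simpa using hy
          subst hy'
          rw [SimpleGraph.adj_comm, SimpleGraph.adj_comm F]
          exact iff_of_false (hadj_u x hx) (hdeg x)
        · have hx' : x = u := by simpa using hx
          subst hx'
          exact iff_of_false (hadj_u y hy) (hdeg y)
        · have hx' : x = u := by simpa using hx
          have hy' : y = u := by simpa using hy
          subst hx'
          subst hy'
          simp

end Pattern

end Pool.Agent.Lib.MP_763321_co
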