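import Mathlib
import Pool.Agent.Lib.MP_763321_co.Base

set_option autoImplicit false

/-!
Half graphs and Littlestone trees; a finite Ramsey lemma.
-/

namespace Pool.Agent.Lib.MP_763321_co

open Finset
open scoped Classical

universe u

variable {V : Type u}

/-- There is no semi-induced half-graph of order `k`. -/
def NoHG (G : SimpleGraph V) (k : ℕ) : Prop :=
  ¬ ∃ (a b : ℕ → V), ∀ i < k, ∀ j < k, (G.Adj (a i) (b j) ↔ i ≤ j)

/-- A Littlestone tree of depth `r` with leaves in `A` and all node labels satisfying `C`. -/
def LT (G : SimpleGraph V) (C : V → Prop) : ℕ → Finset V → Prop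
  | 0, A => A.Nonempty
  | (r + 1), A => ∃ z, C z ∧ LT G C r (A.filter (fun x => G.Adj z x)) ∧
      LT G C r (A.filter (fun x => ¬ G.Adj z x))

lemma LT.mono {G : SimpleGraph V} {C D : V → Prop} (hCD : ∀ z, C z → D z) :
    ∀ (r : ℕ) {A B : Finset V}, A ⊆ B → LT G C r A → LT G D r B := by
  intro r
  induction r with
  | zero =>
    intro A B hAB hA
    exact Finset.Nonempty.mono hAB hA
  | succ r ih =>
    intro A B hAB hA
    obtain ⟨z, hz, h1, h2⟩ := hA
    exact ⟨z, hCD z hz, ih (Finset.filter_subset_filter _ hAB) h1,
      ih (Finset.filter_subset_filter _ hAB) h2⟩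

lemma LT.nonempty {G : SimpleGraph V} {C : V → Prop} : ∀ (r : ℕ) {A : Finset V},
    LT G C r A → A.Nonempty := by
  intro r
  induction r with
  | zero => exact fun h => h
  | succ r ih =>
    intro A h
    obtain ⟨z, _, h1, _⟩ := h
    exact Finset.Nonempty.mono (Finset.filter_subset _ _) (ih h1)

/-- Ramsey property of Littlestone trees. -/
lemma LT.ramsey {G : SimpleGraph V} (C D : V → Prop) : ∀ (n a b : ℕ), a + b = n →
    ∀ A : Finset V, LT G C n A → LT G (fun z => C z ∧ D z) a A ∨
      LT G (fun z => C z ∧ ¬ D z) b A := by
  intro n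
  induction n with
  | zero =>
    intro a b hab A hA
    have ha : a = 0 := by omega
    subst ha
    exact Or.inl hA
  | succ n ih =>
    intro a b hab A hA
    rcases Nat.eq_zero_or_pos a with ha | ha
    · subst ha
      exact Or.inl (hA.nonempty)
    rcases Nat.eq_zero_or_pos b with hb | hb
    · subst hb
      exact Or.inr (hA.nonempty)
    obtain ⟨z, hz, h1, h2⟩ := hA
    by_cases hD : D z
    · have i1 := ih (a - 1) b (by omega) _ h1
      have i2 := ih (a - 1) b (by omega) _ h2
      rcases i1 with i1 | i1
      · rcases i2 with i2 | i2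
        · left
          obtain ⟨a', rfl⟩ : ∃ a', a = a' + 1 := ⟨a - 1, by omega⟩
          exact ⟨z, ⟨hz, hD⟩, i1, i2⟩
        · right
          exact LT.mono (fun _ h => h) b (Finset.filter_subset _ _) i2
      · right
        exact LT.mono (fun _ h => h) b (Finset.filter_subset _ _) i1
    · have i1 := ih a (b - 1) (by omega) _ h1
      have i2 := ih a (b - 1) (by omega) _ h2
      rcases i1 with i1 | i1
      · left
        exact LT.mono (fun _ h => h) a (Finset.filter_subset _ _) i1
      · rcases i2 with i2 | i2
        · left
          exact LT.mono (fun _ h => h) a (Finset.filter_subset _ _) i2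
        · right
          obtain ⟨b', rfl⟩ : ∃ b', b = b' + 1 := ⟨b - 1, by omega⟩
          exact ⟨z, ⟨hz, hD⟩, i1, i2⟩

/-- The depth needed to extract half-graphs. -/
def ltb : ℕ → ℕ
  | 0 => 0
  | (n + 1) => 2 * (ltb n + 1)

lemma LT.half {G : SimpleGraph V} : ∀ (n p q : ℕ), p + q = n → ∀ (C : V → Prop) (A : Finset V),
    LT G C (ltb n) A →
      (∃ (y z : ℕ → V), (∀ i < p, y i ∈ A ∧ C (z i)) ∧
        ∀ i < p, ∀ j < p, (G.Adj (y i) (z j) ↔ i ≤ j)) ∨
      (∃ (y z : ℕ → V), (∀ i < q, y i ∈ A ∧ C (z i)) ∧
        ∀ i < q, ∀ j < q, (G.Adj (z i) (y j) ↔ i < j)) := by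
  intro n
  induction n with
  | zero =>
    intro p q hpq C A hA
    obtain ⟨x, hx⟩ := hA.nonempty
    left
    refine ⟨fun _ => x, fun _ => x, fun i hi => ?_, fun i hi => ?_⟩
    · omega
    · omega
  | succ n ih =>
    intro p q hpq C A hA
    obtain ⟨y0, hy0⟩ := hA.nonempty
    rcases Nat.eq_zero_or_pos p with hp | hp
    · subst hp
      left
      exact ⟨fun _ => y0, fun _ => y0, fun i hi => absurd hi (Nat.not_lt_zero _),
        fun i hi => absurd hi (Nat.not_lt_zero _)⟩
    rcases Nat.eq_zero_or_pos q with hq | hq
    · subst hq
      right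
      exact ⟨fun _ => y0, fun _ => y0, fun i hi => absurd hi (Nat.not_lt_zero _),
        fun i hi => absurd hi (Nat.not_lt_zero _)⟩
    have hsplit := LT.ramsey C (fun z => G.Adj z y0) (ltb (n + 1)) (ltb n + 1) (ltb n + 1)
      (by simp only [ltb]; omega) A hA
    rcases hsplit with h | h
    · -- red step
      obtain ⟨z0, hz0, _, h2⟩ := h
      obtain ⟨hz0C, hz0y⟩ := hz0
      rcases ih (p - 1) q (by omega) _ _ h2 with h3 | h3
      · left
        obtain ⟨y, z, h4, h5⟩ := h3
        refine ⟨fun i => if i = 0 then y0 else y (i - 1), fun i => if i = 0 then z0 else z (i - 1),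
          ?_, ?_⟩
        · intro i hi
          by_cases hi0 : i = 0
          · subst hi0
            simp only [if_true]
            exact ⟨hy0, hz0C⟩
          · simp only [hi0, if_false]
            obtain ⟨h6, h7⟩ := h4 (i - 1) (by omega)
            exact ⟨(Finset.mem_filter.mp h6).1, h7.1⟩
        · intro i hi j hj
          by_cases hi0 : i = 0
          · subst hi0
            by_cases hj0 : j = 0
            · subst hj0
              simp only [if_true]
              exact ⟨fun _ => le_refl _, fun _ => hz0y.symm⟩
            · simp only [hj0, if_true, if_false]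
              exact ⟨fun _ => Nat.zero_le _, fun _ => (h4 (j - 1) (by omega)).2.2.symm⟩
          · by_cases hj0 : j = 0
            · subst hj0
              simp only [hi0, if_true, if_false]
              have h6 := (Finset.mem_filter.mp (h4 (i - 1) (by omega)).1).2
              constructor
              · intro h
                exact absurd h.symm h6
              · intro h
                omega
            · simp only [hi0, hj0, if_false]
              rw [h5 (i - 1) (by omega) (j - 1) (by omega)]
              omega
      · right
        obtain ⟨y, z, h4, h5⟩ := h3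
        exact ⟨y, z, fun i hi => ⟨(Finset.mem_filter.mp (h4 i hi).1).1, (h4 i hi).2.1⟩, h5⟩
    · -- blue step
      obtain ⟨z0, hz0, h2, _⟩ := h
      obtain ⟨hz0C, hz0y⟩ := hz0
      rcases ih p (q - 1) (by omega) _ _ h2 with h3 | h3
      · left
        obtain ⟨y, z, h4, h5⟩ := h3
        exact ⟨y, z, fun i hi => ⟨(Finset.mem_filter.mp (h4 i hi).1).1, (h4 i hi).2.1⟩, h5⟩
      · right
        obtain ⟨y, z, h4, h5⟩ := h3
        refine ⟨fun i => if i = 0 then y0 else y (i - 1), fun i => if i = 0 then z0 else z (i - 1),
          ?_, ?_⟩
        · intro i hi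
          by_cases hi0 : i = 0
          · subst hi0
            simp only [if_true]
            exact ⟨hy0, hz0C⟩
          · simp only [hi0, if_false]
            obtain ⟨h6, h7⟩ := h4 (i - 1) (by omega)
            exact ⟨(Finset.mem_filter.mp h6).1, h7.1⟩
        · intro i hi j hj
          by_cases hi0 : i = 0
          · subst hi0
            by_cases hj0 : j = 0
            · subst hj0
              simp only [if_true]
              constructor
              · intro h
                exact absurd h hz0y
              · intro h
                omega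
            · simp only [hj0, if_true, if_false]
              have h6 := (Finset.mem_filter.mp (h4 (j - 1) (by omega)).1).2
              exact ⟨fun _ => by omega, fun _ => h6⟩
          · by_cases hj0 : j = 0
            · subst hj0
              simp only [hi0, if_true, if_false]
              have h6 := (h4 (i - 1) (by omega)).2.2
              constructor
              · intro h
                exact absurd h h6
              · intro h
                omega
            · simp only [hi0, hj0, if_false]
              rw [h5 (i - 1) (by omega) (j - 1) (by omega)]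
              omega

/-- Graphs without a semi-induced half-graph have no deep Littlestone trees. -/
lemma NoHG.no_LT {G : SimpleGraph V} {k : ℕ} (h : NoHG G k) (A : Finset V) :
    ¬ LT G (fun _ => True) (ltb (2 * k + 1)) A := by
  intro hA
  rcases LT.half (2 * k + 1) k (k + 1) (by omega) _ A hA with h1 | h1
  · obtain ⟨y, z, _, h2⟩ := h1
    exact h ⟨y, z, h2⟩
  · obtain ⟨y, z, _, h2⟩ := h1
    apply h
    refine ⟨z, fun j => y (j + 1), ?_⟩
    intro i hi j hj
    rw [h2 i (by omega) (j + 1) (by omega)]
    omega

/-- Finite Ramsey theorem for symmetric relations. -/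
lemma ramsey_pair : ∀ (n p q : ℕ), p + q = n → ∃ R : ℕ, ∀ {ι : Type} (ρ : ι → ι → Prop),
    (∀ i j, ρ i j → ρ j i) → ∀ S : Finset ι, R ≤ S.card →
      (∃ T ⊆ S, T.card = p ∧ ∀ i ∈ T, ∀ j ∈ T, i ≠ j → ρ i j) ∨
      (∃ T ⊆ S, T.card = q ∧ ∀ i ∈ T, ∀ j ∈ T, i ≠ j → ¬ ρ i j) := by
  intro n
  induction n with
  | zero =>
    intro p q hpq
    refine ⟨0, fun {ι} ρ _ S _ => ?_⟩
    left
    refine ⟨∅, Finset.empty_subset _, ?_, by simp⟩
    rw [Finset.card_empty]
    omega
  | succ n ih =>
    intro p q hpq
    rcases Nat.eq_zero_or_pos p with hp | hp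
    · subst hp
      exact ⟨0, fun {ι} ρ _ S _ => Or.inl ⟨∅, Finset.empty_subset _, by simp, by simp⟩⟩
    rcases Nat.eq_zero_or_pos q with hq | hq
    · subst hq
      exact ⟨0, fun {ι} ρ _ S _ => Or.inr ⟨∅, Finset.empty_subset _, by simp, by simp⟩⟩
    obtain ⟨R1, hR1⟩ := ih (p - 1) q (by omega)
    obtain ⟨R2, hR2⟩ := ih p (q - 1) (by omega)
    refine ⟨R1 + R2 + 1, fun {ι} ρ hρ S hS => ?_⟩
    have hne : S.Nonempty := by
      rw [← Finset.card_pos]
      omega
    obtain ⟨x, hx⟩ := hne
    have hcard : (S.erase x).card = S.card - 1 := Finset.card_erase_of_mem hx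
    have hsum := Finset.card_filter_add_card_filter_not (s := S.erase x) (fun y => ρ x y)
    rcases Nat.lt_or_ge ((S.erase x).filter (fun y => ρ x y)).card R1 with h1 | h1
    · have h2 : R2 ≤ ((S.erase x).filter (fun y => ¬ ρ x y)).card := by omega
      rcases hR2 ρ hρ _ h2 with ⟨T, hT, hTc, hTp⟩ | ⟨T, hT, hTc, hTp⟩
      · left
        exact ⟨T, hT.trans ((Finset.filter_subset _ _).trans (Finset.erase_subset _ _)), hTc, hTp⟩
      · right
        have hxT : x ∉ T := by
          intro h
          have := (Finset.mem_filter.mp (hT h)).1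
          exact (Finset.mem_erase.mp this).1 rfl
        refine ⟨insert x T, ?_, ?_, ?_⟩
        · intro y hy
          rcases Finset.mem_insert.mp hy with rfl | hy
          · exact hx
          · exact Finset.mem_of_mem_erase (Finset.mem_filter.mp (hT hy)).1
        · rw [Finset.card_insert_of_notMem hxT, hTc]
          omega
        · intro i hi j hj hij
          rcases Finset.mem_insert.mp hi with hi' | hi'
          · rcases Finset.mem_insert.mp hj with hj' | hj'
            · exact absurd (hi'.trans hj'.symm) hij
            · rw [hi']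
              exact (Finset.mem_filter.mp (hT hj')).2
          · rcases Finset.mem_insert.mp hj with hj' | hj'
            · rw [hj']
              exact fun h => (Finset.mem_filter.mp (hT hi')).2 (hρ _ _ h)
            · exact hTp i hi' j hj' hij
    · rcases hR1 ρ hρ _ h1 with ⟨T, hT, hTc, hTp⟩ | ⟨T, hT, hTc, hTp⟩
      · left
        have hxT : x ∉ T := by
          intro h
          have := (Finset.mem_filter.mp (hT h)).1
          exact (Finset.mem_erase.mp this).1 rfl
        refine ⟨insert x T, ?_, ?_, ?_⟩
        · intro y hy
          rcases Finset.mem_insert.mp hy with rfl | hy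
          · exact hx
          · exact Finset.mem_of_mem_erase (Finset.mem_filter.mp (hT hy)).1
        · rw [Finset.card_insert_of_notMem hxT, hTc]
          omega
        · intro i hi j hj hij
          rcases Finset.mem_insert.mp hi with hi' | hi'
          · rcases Finset.mem_insert.mp hj with hj' | hj'
            · exact absurd (hi'.trans hj'.symm) hij
            · rw [hi']
              exact (Finset.mem_filter.mp (hT hj')).2
          · rcases Finset.mem_insert.mp hj with hj' | hj'
            · rw [hj']
              exact hρ _ _ (Finset.mem_filter.mp (hT hi')).2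
            · exact hTp i hi' j hj' hij
      · right
        exact ⟨T, hT.trans ((Finset.filter_subset _ _).trans (Finset.erase_subset _ _)), hTc, hTp⟩

end Pool.Agent.Lib.MP_763321_co
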